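import Pool.Agent.MP_10b04c_gt.Mg.Graph

/-!
For a finite connected graph with a vertex of valence at least three and every `r ≥ 1`, the
sequence `k ↦ TC_r (B_k Γ)` is non-decreasing.
-/

set_option autoImplicit false

open Pool.Agent.MP_10b04c_gt

theorem Pool.Agent.Results.MP_10b04c_gt.NonDecreasing.result (n m : ℕ) (src tgt : Fin m → Fin n)
    [ConnectedSpace (GraphSpace src tgt)] (v : Fin n)
    (hv : 3 ≤ (Finset.univ.filter fun e => src e = v).card +
      (Finset.univ.filter fun e => tgt e = v).card) (r : ℕ) (hr : 1 ≤ r) :
    Monotone (fun k => TC r (UConf k (GraphSpace src tgt))) := by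
  obtain ⟨T⟩ := exists_star src tgt v hv
  have := bdc_t2 (src := src) (tgt := tgt)
  have : LocallyPathConnectedSpace unitInterval := (convex_Icc (0 : ℝ) 1).locallyPathConnectedSpace
  have : PathConnectedSpace (GraphSpace src tgt) := .of_locallyPathConnectedSpace
  obtain ⟨e⟩ : Nonempty (Fin m) := by
    by_contra h
    have : IsEmpty (Fin m) := not_nonempty_iff.mp h
    simp [Finset.univ_eq_empty] at hv
  have hne := bd_ne src tgt e
  have hp : ∀ k, PathConnectedSpace (UConf k (GraphSpace src tgt)) := fun k => uconf_path _ k
  exact monotone_nat_of_le_succ fun k => T.TC_mono hr
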