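import Pool.Agent.MP_10b04c_gt.Mg.H96_Geo
import Pool.Agent.MP_10b04c_gt.Mg.H96_Smooth

/-!
For a finite connected graph with `a ≥ 1` vertices of valence at least three, `b` of them
trivalent, and a matching `M` of trivalent vertices, `TC_r (B_k Γ) = r a` as soon as `r ≥ 1`,
`k ≥ 2 a` and `b ≤ r (k - 2 a) + |M|`.
-/

set_option autoImplicit false

open Pool.Agent.MP_10b04c_gt

theorem Pool.Agent.Results.MP_10b04c_gt.StableRange.result (n m : ℕ) (src tgt : Fin m → Fin n)
    [ConnectedSpace (GraphSpace src tgt)] (a b : ℕ)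
    (ha : a = (Finset.univ.filter fun v => 3 ≤ valence src tgt v).card)
    (hb : b = (Finset.univ.filter fun v => valence src tgt v = 3).card) (h1 : 1 ≤ a)
    (M : Finset (Fin m))
    (hM : ∀ e ∈ M, src e ≠ tgt e ∧ valence src tgt (src e) = 3 ∧ valence src tgt (tgt e) = 3)
    (hM' : ∀ e ∈ M, ∀ e' ∈ M, e ≠ e' →
      src e ≠ src e' ∧ src e ≠ tgt e' ∧ tgt e ≠ src e' ∧ tgt e ≠ tgt e')
    (r k : ℕ) (hr : 1 ≤ r) (hk : 2 * a ≤ k) (h : b ≤ r * (k - 2 * a) + M.card) :
    TC r (UConf k (GraphSpace src tgt)) = (r * a : ℕ) := by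
  obtain ⟨v, hv⟩ := Finset.card_pos.1 (ha ▸ h1)
  replace hv := (Finset.mem_filter.1 hv).2
  have hc : Fintype.card {v // 3 ≤ valence src tgt v} = a := by rw [Fintype.card_subtype, ha]
  refine le_antisymm ?_ ?_
  · obtain ⟨n', m', src', tgt', ⟨e⟩, h2, h3⟩ := SR.smooth src tgt v hv
    have : ConnectedSpace (GraphSpace src' tgt') := e.surjective.connectedSpace e.continuous
    obtain ⟨v', hv'⟩ := Finset.card_pos.1 (h3 ▸ ha ▸ h1)
    replace hv' := (Finset.mem_filter.1 hv').2
    have := bdc_t2 (src := src') (tgt := tgt')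
    have : LocallyPathConnectedSpace unitInterval :=
      (convex_Icc (0 : ℝ) 1).locallyPathConnectedSpace
    have : PathConnectedSpace (GraphSpace src' tgt') := .of_locallyPathConnectedSpace
    obtain ⟨e'⟩ : Nonempty (Fin m') := by
      by_contra h
      have : IsEmpty (Fin m') := not_nonempty_iff.mp h
      simp [valence, Finset.univ_eq_empty] at hv'
    have := bd_ne src' tgt' e' k
    have := uconf_path (GraphSpace src' tgt') k
    rw [(SR.TC_homeo e k r).2, ha, ← h3]
    exact SR.upper src' tgt' k r hr v' hv' h2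
  · obtain ⟨D⟩ := SR.legs_exists src tgt M hM hM' r (k - 2 * a) hr (hb ▸ h)
    obtain ⟨X⟩ := SR.test_exists (k := k) D ⟨v, hv⟩ (by omega) (SR.psi_exists src tgt k)
    by_cases h2 : r = 1
    · subst h2
      rw [TC, if_pos rfl]
      refine le_iInf₂ ?_
      rintro n ⟨U, hU, hcov, hs⟩
      have := D.toComb.low_one X 0 U hU hcov hs
      rw [hc] at this
      exact_mod_cast (one_mul a).trans_le this
    rw [TC, if_neg h2]
    refine le_iInf₂ ?_
    rintro n ⟨U, hU, hcov, hs⟩
    have := D.toComb.low X (by omega) U hU hcov fun j => (section_iff hr h2 _).1 (hs j)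
    rw [hc] at this
    exact_mod_cast this
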